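import Mathlib

/-!
# Avoshifts for convex sets are SFT on convex sets

Every subshift of finite type `X ⊆ A^(ℤ^d)` which is avo for convex sets is SFT on convex sets.
-/

namespace Pool.Agent.Results.MP_d66889_lc.AvoImpliesSFTOnConvex

/-- The lattice `ℤ^d`. -/
abbrev Lat (d : ℕ) : Type := Fin d → ℤ

/-- A pattern: a map `D → A` with `D ⊂ ℤ^d` finite. -/
abbrev Pattern (d : ℕ) (A : Type*) := (D : Finset (Lat d)) × (D → A)

variable {d : ℕ} {A : Type*}

/-- The translate by `u` of the pattern `q` occurs in the configuration `x`. -/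
def OccursAt (q : Pattern d A) (u : Lat d) (x : Lat d → A) : Prop :=
  ∀ v : q.1, x (u + v) = q.2 v

/-- The translate by `u` of the pattern `q` has its support inside the support of the pattern `p`
and occurs in `p`. -/
def OccursInAt (q : Pattern d A) (u : Lat d) (p : Pattern d A) : Prop :=
  ∀ v : q.1, ∃ h : u + (v : Lat d) ∈ p.1, p.2 ⟨u + v, h⟩ = q.2 v

/-- `X_F`: the configurations in which no translate of a pattern of `F` occurs. -/
def XF (F : Set (Pattern d A)) : Set (Lat d → A) :=
  {x | ∀ q ∈ F, ∀ u : Lat d, ¬ OccursAt q u x}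

/-- `X` is a subshift of finite type. -/
def IsSFT (X : Set (Lat d → A)) : Prop := ∃ F : Set (Pattern d A), F.Finite ∧ X = XF F

/-- The pattern `p` is globally valid in `X`. -/
def GloballyValid (X : Set (Lat d → A)) (p : Pattern d A) : Prop :=
  ∃ x ∈ X, ∀ v : p.1, p.2 v = x v

/-- The pattern `p` is locally valid for `F`. -/
def LocallyValid (F : Set (Pattern d A)) (p : Pattern d A) : Prop :=
  ∀ q ∈ F, ∀ u : Lat d, ¬ OccursInAt q u p

/-- A finite set `C ⊂ ℤ^d` is convex: `C = conv_ℝ(C) ∩ ℤ^d`. -/
def IsConvexSet (C : Finset (Lat d)) : Prop :=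
  ∀ v : Lat d, v ∈ C ↔
    (fun i => (v i : ℝ)) ∈ convexHull ℝ ((fun (w : Lat d) (i : Fin d) => (w i : ℝ)) '' (C : Set (Lat d)))

open Classical in
/-- The pattern `x|_D ∪ {v ↦ a}` (used for `v ∉ D`). -/
noncomputable def extend (x : Lat d → A) (D : Finset (Lat d)) (v : Lat d) (a : A) : Pattern d A :=
  ⟨insert v D, fun u => if (u : Lat d) = v then a else x u⟩

/-- The set `E_X(x, D, v)`. -/
def E (X : Set (Lat d → A)) (x : Lat d → A) (D : Finset (Lat d)) (v : Lat d) : Set A :=
  {a | GloballyValid X (extend x D v a)}

open Classical in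
/-- `X` is avo for convex sets. -/
def AvoForConvexSets (X : Set (Lat d → A)) : Prop :=
  ∃ N : Finset (Lat d), ∀ C : Finset (Lat d), IsConvexSet C → ∀ v : Lat d, v ∉ C →
    IsConvexSet (insert v C) → ∀ x ∈ X,
      E X x C v = E X x (C ∩ N.image (fun w => v + w)) v

/-- `X` is SFT on convex sets. -/
def SFTOnConvexSets (X : Set (Lat d → A)) : Prop :=
  ∃ F : Set (Pattern d A), F.Finite ∧ X = XF F ∧
    ∀ p : Pattern d A, IsConvexSet p.1 → LocallyValid F p → GloballyValid X p

/-! ### Convex geometry -/

/-- the embedding of `ℤ^d` into `ℝ^d` -/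
def emb (v : Lat d) : Fin d → ℝ := fun i => (v i : ℝ)

lemma emb_injective : Function.Injective (emb (d := d)) := by
  intro v w h
  funext i
  have := congrFun h i
  simpa [emb] using this

lemma isConvexSet_iff (C : Finset (Lat d)) :
    IsConvexSet C ↔ ∀ v : Lat d, emb v ∈ convexHull ℝ (emb '' (C : Set (Lat d))) → v ∈ C := by
  constructor
  · intro h v hv
    exact (h v).mpr hv
  · intro h v
    exact ⟨fun hv => subset_convexHull ℝ _ ⟨v, hv, rfl⟩, fun hv => h v hv⟩

open Classical in
/-- A nonempty finite convex set has a point whose removal leaves a convex set. -/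
lemma exists_extreme (C : Finset (Lat d)) (hC : IsConvexSet C) (hne : C.Nonempty) :
    ∃ v ∈ C, IsConvexSet (C.erase v) := by
  rw [isConvexSet_iff] at hC
  set K := convexHull ℝ (emb '' (C : Set (Lat d))) with hK
  have hcomp : IsCompact K := ((C.finite_toSet).image emb).isCompact_convexHull ℝ
  have hKne : K.Nonempty := by
    obtain ⟨v, hv⟩ := hne
    exact ⟨emb v, subset_convexHull ℝ _ ⟨v, hv, rfl⟩⟩
  obtain ⟨y, hy⟩ := hcomp.extremePoints_nonempty hKne
  have hy' := extremePoints_convexHull_subset hy
  obtain ⟨v, hv, rfl⟩ := hy'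
  refine ⟨v, hv, ?_⟩
  rw [isConvexSet_iff]
  intro w hw
  have hconv : Convex ℝ (K \ {emb v}) := ((convex_convexHull ℝ _).mem_extremePoints_iff_convex_sdiff.mp hy).2
  · have hsub : convexHull ℝ (emb '' ((C.erase v : Finset (Lat d)) : Set (Lat d))) ⊆ K \ {emb v} := by
      apply convexHull_min _ hconv
      rintro _ ⟨u, hu, rfl⟩
      rw [Finset.mem_coe, Finset.mem_erase] at hu
      exact ⟨subset_convexHull ℝ _ ⟨u, hu.2, rfl⟩, fun h => hu.1 (emb_injective h)⟩
    have hw' := hsub hw
    rw [Finset.mem_erase]
    exact ⟨fun h => hw'.2 (by rw [h]; rfl), hC w hw'.1⟩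

/-- The box `[-n, n]^d`. -/
noncomputable def box (d n : ℕ) : Finset (Lat d) := Fintype.piFinset fun _ => Finset.Icc (-(n : ℤ)) n

lemma box_convex (n : ℕ) : IsConvexSet (box d n) := by
  rw [isConvexSet_iff]
  intro v hv
  have hconv : Convex ℝ (Set.Icc (fun _ : Fin d => -(n : ℝ)) (fun _ => (n : ℝ))) := convex_Icc _ _
  have hsub : convexHull ℝ (emb '' ((box d n : Finset (Lat d)) : Set (Lat d))) ⊆
      Set.Icc (fun _ : Fin d => -(n : ℝ)) (fun _ => (n : ℝ)) := by
    apply convexHull_min _ hconv
    rintro _ ⟨u, hu, rfl⟩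
    rw [Finset.mem_coe, box, Fintype.mem_piFinset] at hu
    constructor
    · intro i
      have := (Finset.mem_Icc.mp (hu i)).1
      simp only [emb]
      exact_mod_cast this
    · intro i
      have := (Finset.mem_Icc.mp (hu i)).2
      simp only [emb]
      exact_mod_cast this
  have h := hsub hv
  rw [box, Fintype.mem_piFinset]
  intro i
  rw [Finset.mem_Icc]
  have h1 := h.1 i
  have h2 := h.2 i
  simp only [emb] at h1 h2
  exact ⟨by exact_mod_cast h1, by exact_mod_cast h2⟩

lemma exists_box (D : Finset (Lat d)) : ∃ n : ℕ, D ⊆ box d n := by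
  refine ⟨D.sup fun v => Finset.univ.sup fun i => (v i).natAbs, ?_⟩
  intro v hv
  rw [box, Fintype.mem_piFinset]
  intro i
  have h1 : (v i).natAbs ≤ D.sup fun v => Finset.univ.sup fun i => (v i).natAbs :=
    (Finset.le_sup (f := fun i => (v i).natAbs) (Finset.mem_univ i)).trans
      (Finset.le_sup (f := fun v : Lat d => Finset.univ.sup fun i => (v i).natAbs) hv)
  rw [Finset.mem_Icc]
  omega

/-! ### The theorem -/

lemma shift_mem {F : Set (Pattern d A)} {x : Lat d → A} (hx : x ∈ XF F) (u : Lat d) :
    (fun v => x (v + u)) ∈ XF F := by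
  intro q hq w hocc
  apply hx q hq (w + u)
  intro v
  have := hocc v
  rw [← this]
  congr 1
  abel

/-- Every subshift of finite type which is avo for convex sets is SFT on convex sets, in every
dimension `d` and over every finite alphabet. -/
theorem result (d : ℕ) (A : Type*) [Finite A] (X : Set (Lat d → A))
    (hX : IsSFT X) (havo : AvoForConvexSets X) : SFTOnConvexSets X := by
  classical
  obtain ⟨F₀, -, hF₀⟩ := hX
  obtain ⟨N, hN⟩ := havo
  have hshift : ∀ x ∈ X, ∀ u : Lat d, (fun v => x (v + u)) ∈ X := by
    intro x hx u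
    rw [hF₀] at hx ⊢
    exact shift_mem hx u
  let F : Set (Pattern d A) := {q | q.1 ⊆ insert 0 N ∧ ¬ GloballyValid X q}
  have hFfin : F.Finite := by
    cases nonempty_fintype A
    apply Set.Finite.subset (Finset.finite_toSet
      ((insert 0 N).powerset.sigma (fun D => (Finset.univ : Finset (D → A)))))
    intro q hq
    rw [Finset.mem_coe, Finset.mem_sigma]
    exact ⟨Finset.mem_powerset.mpr hq.1, Finset.mem_univ _⟩
  -- the main induction
  have main : ∀ n : ℕ, ∀ p : Pattern d A, p.1.card = n → IsConvexSet p.1 → LocallyValid F p →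
      GloballyValid X p := by
    intro n
    induction n with
    | zero =>
      intro p hcard _ hloc
      by_contra hgv
      have hempty : p.1 = ∅ := Finset.card_eq_zero.mp hcard
      apply hloc p ⟨by rw [hempty]; exact Finset.empty_subset _, hgv⟩ 0
      rintro ⟨v, hv⟩
      exact absurd hv (by rw [hempty]; exact Finset.notMem_empty _)
    | succ n ih =>
      intro p hcard hconv hloc
      obtain ⟨C, p⟩ := p
      simp only at hcard hconv
      have hne : C.Nonempty := by
        rw [← Finset.card_pos]; omega
      obtain ⟨v, hv, hC'⟩ := exists_extreme C hconv hne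
      set C' := C.erase v with hC'def
      have hvC' : v ∉ C' := Finset.notMem_erase v C
      have hins : insert v C' = C := Finset.insert_erase hv
      -- restriction of `p` to `C'`
      let p' : Pattern d A := ⟨C', fun u => p ⟨u, Finset.mem_of_mem_erase u.2⟩⟩
      have hloc' : LocallyValid F p' := by
        intro q hq u hocc
        apply hloc q hq u
        intro w
        obtain ⟨h, hw⟩ := hocc w
        exact ⟨Finset.mem_of_mem_erase h, hw⟩
      obtain ⟨x, hx, hxp⟩ := ih p' (by
        show C'.card = n
        rw [hC'def, Finset.card_erase_of_mem hv]; omega) hC' hloc'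
      have hE := hN C' hC' v hvC' (by rw [hins]; exact hconv) x hx
      have hmem : p ⟨v, hv⟩ ∈ E X x (C' ∩ N.image (fun w => v + w)) v := by
        by_contra hnot
        -- the translate by `-v` of the pattern lies in `F`
        let D : Finset (Lat d) := C' ∩ N.image (fun w => v + w)
        let D₀ : Finset (Lat d) := (insert v D).image (fun w => w - v)
        have hD₀ : ∀ w : D₀, v + (w : Lat d) ∈ C := by
          rintro ⟨w, hw⟩
          obtain ⟨w', hw', rfl⟩ := Finset.mem_image.mp hw
          rw [add_sub_cancel]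
          rcases Finset.mem_insert.mp hw' with rfl | h
          · exact hv
          · exact Finset.mem_of_mem_erase (Finset.mem_of_mem_inter_left h)
        let q : Pattern d A := ⟨D₀, fun w => p ⟨v + w, hD₀ w⟩⟩
        have hq : q ∈ F := by
          refine ⟨?_, ?_⟩
          · intro w hw
            obtain ⟨w', hw', rfl⟩ := Finset.mem_image.mp hw
            rcases Finset.mem_insert.mp hw' with rfl | h
            · rw [sub_self]; exact Finset.mem_insert_self _ _
            · obtain ⟨z, hz, rfl⟩ := Finset.mem_image.mp (Finset.mem_of_mem_inter_right h)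
              rw [add_sub_cancel_left]
              exact Finset.mem_insert_of_mem hz
          · rintro ⟨y, hy, hyq⟩
            apply hnot
            refine ⟨fun w => y (w + (-v)), hshift y hy (-v), ?_⟩
            rintro ⟨w, hw⟩
            have hw0 : w - v ∈ D₀ := Finset.mem_image.mpr ⟨w, hw, rfl⟩
            have h1 := hyq ⟨w - v, hw0⟩
            have h2 : y (w + -v) = y (w - v) := by rw [sub_eq_add_neg]
            show (if w = v then p ⟨v, hv⟩ else x w) = y (w + -v)
            rw [h2, ← h1]
            show _ = p ⟨v + (w - v), hD₀ ⟨w - v, hw0⟩⟩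
            by_cases hwv : w = v
            · subst hwv
              rw [if_pos rfl]
              congr 1
              apply Subtype.ext
              simp
            · rw [if_neg hwv]
              have hwD : w ∈ D := (Finset.mem_insert.mp hw).resolve_left hwv
              have hwC' : w ∈ C' := Finset.mem_of_mem_inter_left hwD
              have h3 := hxp ⟨w, hwC'⟩
              have h4 : p ⟨w, Finset.mem_of_mem_erase hwC'⟩ = x w := h3
              rw [← h4]
              congr 1
              apply Subtype.ext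
              simp
        apply hloc q hq v
        intro w
        exact ⟨hD₀ w, rfl⟩
      rw [← hE] at hmem
      obtain ⟨y, hy, hyp⟩ := hmem
      refine ⟨y, hy, ?_⟩
      rintro ⟨w, hw⟩
      have hw1 : w ∈ insert v C' := by rw [hins]; exact hw
      have h1 := hyp ⟨w, hw1⟩
      have h2 : (if w = v then p ⟨v, hv⟩ else x w) = y w := h1
      show p ⟨w, hw⟩ = y w
      rw [← h2]
      by_cases hwv : w = v
      · subst hwv
        rw [if_pos rfl]
      · rw [if_neg hwv]
        have hwC' : w ∈ C' := (Finset.mem_insert.mp hw1).resolve_left hwv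
        exact hxp ⟨w, hwC'⟩
  refine ⟨F, hFfin, ?_, fun p hp hloc => main _ p rfl hp hloc⟩
  apply Set.Subset.antisymm
  · intro x hx q hq u hocc
    apply hq.2
    refine ⟨fun v => x (v + u), hshift x hx u, ?_⟩
    intro v
    rw [← hocc v, add_comm]
  · intro x hx
    rw [hF₀]
    intro q hq u hocc
    obtain ⟨n, hn⟩ := exists_box (q.1.image (fun w => u + w))
    have hgv : GloballyValid X ⟨box d n, fun v => x v⟩ := by
      apply main _ _ rfl (box_convex n)
      intro q' hq' w hocc'
      apply hx q' hq' w
      intro v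
      obtain ⟨h, hv⟩ := hocc' v
      exact hv
    obtain ⟨y, hy, hyx⟩ := hgv
    rw [hF₀] at hy
    apply hy q hq u
    intro v
    have h1 : u + (v : Lat d) ∈ box d n := hn (Finset.mem_image.mpr ⟨v, v.2, rfl⟩)
    have h2 : x (u + v) = y (u + v) := hyx ⟨u + v, h1⟩
    rw [← h2]
    exact hocc v

end Pool.Agent.Results.MP_d66889_lc.AvoImpliesSFTOnConvex
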